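import Pool.Agent.H.MP_e1341d_pr.Perc

namespace Pool.Agent.Results.MP_e1341d_pr.InfiniteMean

open MeasureTheory ProbabilityTheory Filter Pool.Agent.H.MP_e1341d_pr
open scoped ENNReal NNReal

attribute [local irreducible] box

lemma ex_seq : ∃ l : ℕ → ℕ, l 0 = 1 ∧ (∀ i, 2 ^ (i + 1) * l i ^ 2 ≤ l (i + 1)) ∧
    ∀ i, ((2 ^ (i + 1) * 3 * (19 * 10 ^ l i) ^ 2 : ℕ) : ℝ≥0∞) ≤ g (l (i + 1)) 0 := by
  have : ∀ i a : ℕ, ∃ b, 2 ^ (i + 1) * a ^ 2 ≤ b ∧
      ((2 ^ (i + 1) * 3 * (19 * 10 ^ a) ^ 2 : ℕ) : ℝ≥0∞) ≤ g b 0 := by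
    intro i a
    obtain ⟨n, hn⟩ := g_big (2 ^ (i + 1) * 3 * (19 * 10 ^ a) ^ 2)
    exact ⟨max n _, le_max_right _ _, hn _ (le_max_left _ _)⟩
  choose F hF using this
  exact ⟨fun n => Nat.rec 1 F n, rfl, fun i => (hF i _).1, fun i => (hF i _).2⟩

lemma inv_le {A B : ℕ} {X : ℝ≥0∞} (h : X * B ≤ A) : (A : ℝ≥0∞)⁻¹ * X ≤ (B : ℝ≥0∞)⁻¹ := by
  rw [ENNReal.le_inv_iff_mul_le, mul_assoc]
  exact (mul_le_mul_right h _).trans (ENNReal.inv_mul_le_one _)

lemma geo (j : ℕ) : ∑' i : ℕ, ((2 ^ i * (j + 1) : ℕ) : ℝ≥0∞)⁻¹ = 2 * ((j + 1 : ℕ) : ℝ≥0∞)⁻¹ := by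
  have : ∀ i : ℕ, ((2 ^ i * (j + 1) : ℕ) : ℝ≥0∞)⁻¹ = 2⁻¹ ^ i * ((j + 1 : ℕ) : ℝ≥0∞)⁻¹ := fun i => by
    rw [Nat.cast_mul, ENNReal.mul_inv (by simp) (by simp), ← ENNReal.inv_pow]; simp
  simp only [this, ENNReal.tsum_mul_right, ENNReal.tsum_geometric, ENNReal.one_sub_inv_two, inv_inv]

section
variable {l : ℕ → ℕ} (h0 : l 0 = 1) (h1 : ∀ i, 2 ^ (i + 1) * l i ^ 2 ≤ l (i + 1))
  (h2 : ∀ i, ((2 ^ (i + 1) * 3 * (19 * 10 ^ l i) ^ 2 : ℕ) : ℝ≥0∞) ≤ g (l (i + 1)) 0)
  {m : PMF ℕ} (hm : ∀ W, (worm m).toOuterMeasure W ≤ ∑' i, (((i + 1) * l i : ℕ) : ℝ≥0∞)⁻¹ * O (l i) W)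

include h0 h1 in
lemma l_pos (i : ℕ) : 2 ^ i ≤ l i := by
  induction i with
  | zero => simp [h0]
  | succ i ih =>
    have : 0 < l i := lt_of_lt_of_le (by positivity) ih
    exact le_trans (Nat.le_mul_of_pos_right _ (by positivity)) (h1 i)

include h0 h1 in
lemma l_mono : StrictMono l := strictMono_nat_of_lt_succ fun i => by
  have a1 : 0 < l i := lt_of_lt_of_le (by positivity) (l_pos h0 h1 i)
  have a2 : 2 ≤ 2 ^ (i + 1) := by rw [pow_succ]; have : 0 < 2 ^ i := by positivity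
                                  omega
  have := h1 i
  nlinarith

include h0 h1 hm in
lemma big (v : ℝ≥0) (c : V) {r : ℕ} (hr : 0 < r) (j : ℕ) (hj : ∀ i < j, l i ≤ r) :
    (P v m).real (Big c r) ≤ 121203 * v / (j + 1) := by
  have hex : ∃ i, r < l i := ⟨r, lt_of_lt_of_le Nat.lt_two_pow_self (l_pos h0 h1 r)⟩
  obtain ⟨k, hk1, hk2⟩ : ∃ k, r < l k ∧ ∀ i < k, l i ≤ r :=
    ⟨Nat.find hex, Nat.find_spec hex, fun i hi => not_lt.1 (Nat.find_min hex hi)⟩
  have hjk : j ≤ k := by by_contra h; exact absurd (hj k (by omega)) (by omega)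
  have key : ∀ x, (worm m).toOuterMeasure {w | ∃ y ∈ trace x w, y ∉ box x r} * (r : ℝ≥0∞) ^ 2
      ≤ 3 * ((j + 1 : ℕ) : ℝ≥0∞)⁻¹ := by
    intro x
    refine (mul_le_mul_left (hm _) _).trans ?_
    rw [← ENNReal.tsum_mul_right]
    calc _ ≤ ∑' i : ℕ, ((if i = k then ((j + 1 : ℕ) : ℝ≥0∞)⁻¹ else 0) + ((2 ^ i * (j + 1) : ℕ) : ℝ≥0∞)⁻¹) := by
          refine ENNReal.tsum_le_tsum fun i => ?_
          rcases lt_trichotomy i k with h | h | h
          · rw [reach x (l i) r x (by have := hk2 i h; rw [mem_box]; omega)]; simp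
          · subst h
            rw [if_pos rfl, mul_assoc]
            refine le_add_right (inv_le ?_)
            have := kolm x r (l i) x
            rw [sub_self, show N 0 = 0 from rfl, Nat.cast_zero, zero_add] at this
            refine (mul_le_mul_left this _).trans ?_
            rw [← Nat.cast_mul, Nat.cast_le, mul_comm]
            exact Nat.mul_le_mul_right _ (by omega)
          · rw [mul_assoc]
            refine le_add_left (inv_le ?_)
            refine (mul_le_mul_left (mul_le_of_le_one_left' (om_le_one _ _)) _).trans ?_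
            rw [← Nat.cast_pow, ← Nat.cast_mul, Nat.cast_le]
            obtain ⟨n, rfl⟩ : ∃ n, i = n + 1 := ⟨i - 1, by omega⟩
            have a1 : r ≤ l n := hk1.le.trans ((l_mono h0 h1).monotone (by omega))
            calc r ^ 2 * (2 ^ (n + 1) * (j + 1)) = (j + 1) * (2 ^ (n + 1) * r ^ 2) := by ring
              _ ≤ (n + 1 + 1) * (2 ^ (n + 1) * l n ^ 2) := by gcongr; omega
              _ ≤ _ := Nat.mul_le_mul_left _ (h1 n)
      _ = _ := by rw [ENNReal.tsum_add, tsum_ite_eq, geo]; ring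
  have hr0 : (r : ℝ≥0∞) ^ 2 ≠ 0 := by simp [hr.ne']
  have := (P_ex v m _ : P v m (Big c r) ≤ _).trans (sum_box c (100 * r) _
    (v * (3 * ((j + 1 : ℕ) : ℝ≥0∞)⁻¹ / (r : ℝ≥0∞) ^ 2)) (fun x hx => by
      push_cast at hx; simp only [hx]; simp) fun x => by
      refine mul_le_mul_right ?_ _
      rw [ENNReal.le_div_iff_mul_le (Or.inl hr0) (Or.inl (by simp))]
      exact le_trans (mul_le_mul_left ((worm m).toOuterMeasure.mono fun w hw => hw.2) _) (key x))
  refine (ENNReal.toReal_mono (ENNReal.mul_ne_top (ENNReal.natCast_ne_top _) (ENNReal.mul_ne_top (by simp)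
    (ENNReal.div_ne_top (ENNReal.mul_ne_top (by simp) (by simp)) hr0))) this).trans ?_
  simp only [ENNReal.toReal_mul, ENNReal.toReal_div, ENNReal.toReal_inv, ENNReal.toReal_natCast,
    ENNReal.toReal_pow, ENNReal.coe_toReal, ENNReal.toReal_ofNat]
  have hr' : (1 : ℝ) ≤ r := by exact_mod_cast hr
  push_cast
  have e : (2 * (100 * (r : ℝ)) + 1) ^ 2 * (v * (3 * ((j : ℝ) + 1)⁻¹ / r ^ 2))
      = (2 * (100 * (r : ℝ)) + 1) ^ 2 / r ^ 2 * 3 * v / (j + 1) := by field_simp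
  have : (2 * (100 * (r : ℝ)) + 1) ^ 2 / r ^ 2 ≤ 40401 := by
    rw [div_le_iff₀ (by positivity)]; nlinarith
  rw [e]
  gcongr
  linarith

include h0 h1 h2 hm in
lemma far (v : ℝ≥0) (c : V) (j : ℕ) : (P v m).real (Far c (10 ^ l j)) ≤ 2 * v / (j + 1) := by
  obtain ⟨r, hr⟩ : ∃ r, r = 10 ^ l j := ⟨_, rfl⟩
  rw [← hr]
  have hlr : l j ≤ r := hr ▸ (Nat.lt_pow_self (by norm_num)).le
  have key : ∀ i, (((i + 1) * l i : ℕ) : ℝ≥0∞)⁻¹ *
      ∑' x, O (l i) {w | x ∉ box c (10 * r) ∧ ∃ y ∈ trace x w, y ∈ box c (9 * r)}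
      ≤ ((2 ^ i * (j + 1) : ℕ) : ℝ≥0∞)⁻¹ := by
    intro i
    refine inv_le ?_
    rcases le_or_gt i j with h | h
    · have : ∀ x, O (l i) {w | x ∉ box c (10 * r) ∧ ∃ y ∈ trace x w, y ∈ box c (9 * r)} = 0 := by
        intro x
        have a1 : l i ≤ r := ((l_mono h0 h1).monotone h).trans hlr
        refine le_antisymm ?_ bot_le
        rw [← reach x (l i) r x (by rw [mem_box]; omega)]
        refine (walk _).toOuterMeasure.mono ?_
        rintro w ⟨hx, y, hy, hy'⟩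
        exact ⟨y, hy, by rw [mem_box] at *; omega⟩
      simp only [this, tsum_zero, zero_mul, zero_le]
    · obtain ⟨n, rfl⟩ : ∃ n, i = n + 1 := ⟨i - 1, by omega⟩
      have a1 : ∑' x, O (l (n + 1)) {w | x ∉ box c (10 * r) ∧ ∃ y ∈ trace x w, y ∈ box c (9 * r)}
          ≤ ((2 * (9 * r) + 1) ^ 2 : ℕ) * ∑' x, Pool.Agent.H.MP_e1341d_pr.h (l (n + 1)) x := by
        calc _ ≤ ∑' x, ∑ y ∈ box c (9 * r : ℕ), Pool.Agent.H.MP_e1341d_pr.h (l (n + 1)) (x - y) := by
              refine ENNReal.tsum_le_tsum fun x => ?_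
              refine le_trans ((walk _).toOuterMeasure.mono ?_) (measure_biUnion_finset_le (box c (9 * r : ℕ))
                fun y => {w | (0 : V) ∈ trace (x - y) w})
              rintro w ⟨-, y, hy, hy'⟩
              exact Set.mem_biUnion (x := y) (by simpa using hy') (by simpa using trace_sub y y w x hy)
          _ = _ := by
              rw [Summable.tsum_finsetSum fun _ _ => ENNReal.summable, ← card_box c, ← nsmul_eq_mul,
                ← Finset.sum_const]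
              exact Finset.sum_congr rfl fun y _ => (Equiv.subRight y).tsum_eq _
      have a2 := (mul_le_mul_right (h2 n) _).trans (h_sum (l (n + 1)))
      have a3 : r ≤ 10 ^ l n := hr ▸ Nat.pow_le_pow_right (by norm_num) ((l_mono h0 h1).monotone (by omega))
      have a4 : 0 < r := hr ▸ by positivity
      have a5 : 0 < l (n + 1) := lt_of_lt_of_le (by positivity) (l_pos h0 h1 _)
      set H := ∑' x, Pool.Agent.H.MP_e1341d_pr.h (l (n + 1)) x
      refine (mul_le_mul_left a1 _).trans ?_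
      rw [← ENNReal.mul_le_mul_iff_right (a := 3) (by norm_num) (by norm_num)]
      calc _ = H * ((2 ^ (n + 1) * 3 * (2 * (9 * r) + 1) ^ 2 : ℕ) : ℝ≥0∞) * ((j + 1 : ℕ) : ℝ≥0∞) := by
            push_cast; ring
        _ ≤ H * ((2 ^ (n + 1) * 3 * (19 * 10 ^ l n) ^ 2 : ℕ) : ℝ≥0∞) * ((j + 1 : ℕ) : ℝ≥0∞) := by
            gcongr; omega
        _ ≤ ((2 * l (n + 1) + 1 : ℕ) : ℝ≥0∞) * ((j + 1 : ℕ) : ℝ≥0∞) := mul_le_mul_left a2 _
        _ ≤ _ := by
            have : (2 * l (n + 1) + 1) * (j + 1) ≤ 3 * ((n + 1 + 1) * l (n + 1)) := by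
              calc _ ≤ (3 * l (n + 1)) * (n + 1 + 1) := Nat.mul_le_mul (by omega) (by omega)
                _ = _ := by ring
            exact_mod_cast this
  have : P v m (Far c r) ≤ v * (2 * ((j + 1 : ℕ) : ℝ≥0∞)⁻¹) := by
    refine (P_ex v m _).trans ?_
    rw [ENNReal.tsum_mul_left]
    refine mul_le_mul_right ((ENNReal.tsum_le_tsum fun x => hm _).trans ?_) _
    rw [ENNReal.tsum_comm, ← geo]
    exact ENNReal.tsum_le_tsum fun i => by rw [ENNReal.tsum_mul_left]; exact key i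
  refine (ENNReal.toReal_mono (ENNReal.mul_ne_top (by simp) (ENNReal.mul_ne_top (by simp) (by simp)))
    this).trans (le_of_eq ?_)
  simp only [ENNReal.toReal_mul, ENNReal.toReal_inv, ENNReal.toReal_natCast, ENNReal.coe_toReal,
    ENNReal.toReal_ofNat]
  push_cast; ring

lemma rec_real (v : ℝ≥0) (m : PMF ℕ) (k : ℕ) {b : ℝ} (hb0 : 0 ≤ b) (hb : ∀ x, (P v m).real (G x (10 ^ k)) ≤ b)
    (c : V) : (P v m).real (G c (10 ^ (k + 1))) ≤ (P v m).real (Big c (10 ^ k)) + 121 ^ 4 * (b * b) := by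
  have := P_rec v m c (r := 10 ^ k) (by positivity) (ENNReal.ofReal b) fun x => by
    rw [← ofReal_measureReal]; exact ENNReal.ofReal_le_ofReal (hb x)
  rw [pow_succ']
  refine (ENNReal.toReal_mono (by finiteness) this).trans (le_of_eq ?_)
  rw [ENNReal.toReal_add (by finiteness) (by finiteness)]
  simp [hb0, Measure.real]
  norm_num

include h0 h1 h2 hm in
lemma no_perc (v : ℝ≥0) (hv : (v : ℝ) ≤ 1 / 10 ^ 15) : P v m {ω | Percolates (occ Set.univ ω)} = 0 := by
  have hv0 : (0 : ℝ) ≤ v := v.2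
  have A : ∀ k c, (P v m).real (G c (10 ^ k)) ≤ 1 / 10 ^ 9 := by
    intro k
    induction k with
    | zero =>
      intro c
      have := ENNReal.toReal_mono (by finiteness) (G_one v m c)
      simp only [ENNReal.toReal_mul, ENNReal.toReal_natCast, ENNReal.coe_toReal] at this
      rw [pow_zero, Measure.real]
      push_cast at this
      linarith
    | succ k ih =>
      intro c
      have a1 := rec_real v m k (by norm_num) ih c
      have a2 := big h0 h1 hm v c (r := 10 ^ k) (by positivity) 0 (by simp)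
      simp only [Nat.cast_zero, zero_add, div_one] at a2
      norm_num at a1 ⊢
      linarith
  have B : ∀ t : ℕ, ∀ᶠ k in atTop, ∀ c, (P v m).real (G c (10 ^ k)) ≤ 1 / 10 ^ 9 * (1 / 2) ^ t := by
    intro t
    induction t with
    | zero => exact Eventually.of_forall fun k c => by simpa using A k c
    | succ t ih =>
      obtain ⟨K, hK⟩ := eventually_atTop.1 ih
      have hs : (0 : ℝ) < (1 / 2) ^ t := by positivity
      have hs1 : (1 / 2 : ℝ) ^ t ≤ 1 := pow_le_one₀ (by norm_num) (by norm_num)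
      obtain ⟨j, hj⟩ := exists_nat_ge (1 / (1 / 2 : ℝ) ^ t)
      refine eventually_atTop.2 ⟨max K (l j) + 1, fun k hk c => ?_⟩
      obtain ⟨k, rfl⟩ : ∃ n, k = n + 1 := ⟨k - 1, by omega⟩
      have a1 := rec_real v m k (by positivity) (hK k (by omega)) c
      have a2 := big h0 h1 hm v c (r := 10 ^ k) (by positivity) j fun i hi =>
        ((l_mono h0 h1).monotone hi.le).trans (le_trans (by omega) (Nat.lt_pow_self (by norm_num)).le)
      have a3 : 121203 * (v : ℝ) / (j + 1) ≤ 121203 * v * (1 / 2) ^ t := by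
        rw [div_le_iff₀ (by positivity), mul_assoc (121203 * (v : ℝ))]
        rw [div_le_iff₀ hs] at hj
        exact le_mul_of_one_le_right (by positivity) (by nlinarith)
      rw [pow_succ (1 / 2 : ℝ)]
      generalize (1 / 2 : ℝ) ^ t = s at *
      nlinarith
  have C : ∀ a, P v m {ω | {b | Conn (occ Set.univ ω) a b}.Infinite} = 0 := by
    intro a
    rw [← measureReal_eq_zero_iff]
    refine le_antisymm (le_of_forall_pos_le_add fun ε hε => ?_) measureReal_nonneg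
    obtain ⟨t, ht⟩ := exists_pow_lt_of_lt_one (half_pos hε) (show (1 / 2 : ℝ) < 1 by norm_num)
    obtain ⟨K, hK⟩ := eventually_atTop.1 (B t)
    obtain ⟨j, hj⟩ := exists_nat_ge (max (K : ℝ) (1 / ε))
    have j1 : K ≤ j := by exact_mod_cast (le_max_left _ _).trans hj
    have j2 := (le_max_right _ _).trans hj
    have a1 := hK (l j) (j1.trans (l_mono h0 h1).le_apply) a
    have a2 := far h0 h1 h2 hm v a j
    have a3 : 2 * (v : ℝ) / (j + 1) ≤ ε / 2 := by
      rw [div_le_iff₀ hε] at j2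
      rw [div_le_iff₀ (by positivity)]
      nlinarith
    have a4 := (measureReal_mono (μ := P v m) (perc_sub a (r := 10 ^ l j) (by positivity))).trans
      (measureReal_union_le _ _)
    have hs : (0 : ℝ) < (1 / 2) ^ t := by positivity
    nlinarith
  refine measure_mono_null (fun ω hω => ?_) (measure_iUnion_null C)
  obtain ⟨a, -, ha⟩ := hω
  exact Set.mem_iUnion.2 ⟨a, ha⟩

end

theorem result : ∃ m : PMF ℕ, m 0 = 0 ∧ ∑' n : ℕ, (n : ℝ≥0∞) * m n = ⊤ ∧ 0 < vc m := by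
  obtain ⟨l, h0, h1, h2⟩ := ex_seq
  have hp : ∀ i, 0 < l i := fun i => lt_of_lt_of_le (by positivity) (l_pos h0 h1 i)
  set q : ℕ → ℝ≥0∞ := fun i => (((i + 1) * l i : ℕ) : ℝ≥0∞)⁻¹ with hq
  have z1 : 1 ≤ ∑' i, q i := le_trans (by simp [hq, h0]) (ENNReal.le_tsum 0)
  have z2 : ∑' i, q i ≠ ⊤ := by
    refine ne_top_of_le_ne_top ?_ (ENNReal.tsum_le_tsum (g := fun i => ((2 ^ i * (0 + 1) : ℕ) : ℝ≥0∞)⁻¹) fun i => ?_)
    · rw [geo]; simp
    · refine ENNReal.inv_le_inv.2 (Nat.cast_le.2 ?_)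
      have := l_pos h0 h1 i
      nlinarith
  have z0 : ∑' i, q i ≠ 0 := (zero_lt_one.trans_le z1).ne'
  let pp := PMF.normalize q z0 z2
  refine ⟨pp.map l, ?_, ?_, ?_⟩
  · rw [PMF.map_apply]
    simp [fun i => (hp i).ne]
  · have a1 := ENNReal.tsum_comp_le_tsum_of_injective (l_mono h0 h1).injective
      fun n : ℕ => (n : ℝ≥0∞) * pp.map l n
    refine top_le_iff.1 (le_trans ?_ a1)
    calc ⊤ = ∑' i : ℕ, ((i + 1 : ℕ) : ℝ≥0∞)⁻¹ * (∑' i, q i)⁻¹ := by
          rw [ENNReal.tsum_mul_right, harm, ENNReal.top_mul (ENNReal.inv_ne_zero.2 z2)]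
      _ ≤ _ := by
          refine ENNReal.tsum_le_tsum fun i => ?_
          have b1 : pp i ≤ pp.map l (l i) := by
            rw [PMF.map_apply]
            exact le_trans (by simp) (ENNReal.le_tsum i)
          refine le_trans (le_of_eq ?_) (mul_le_mul_right b1 _)
          rw [PMF.normalize_apply, ← mul_assoc, hq]
          congr 1
          dsimp only
          rw [Nat.cast_mul, ENNReal.mul_inv (by simp) (by simp), mul_left_comm,
            ENNReal.mul_inv_cancel (by simp [(hp i).ne']) (by simp), mul_one]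
  · have hm : ∀ W, (worm (pp.map l)).toOuterMeasure W ≤ ∑' i, (((i + 1) * l i : ℕ) : ℝ≥0∞)⁻¹ * O (l i) W := by
      intro W
      rw [worm, PMF.bind_map, PMF.toOuterMeasure_bind_apply]
      refine ENNReal.tsum_le_tsum fun i => mul_le_mul_left ?_ _
      rw [PMF.normalize_apply]
      exact mul_le_of_le_one_right' (ENNReal.inv_le_one.2 z1)
    refine lt_of_lt_of_le (b := ((1 / 10 ^ 15 : ℝ≥0) : ℝ≥0∞)) (by simp) (le_iInf fun v => le_iInf fun _ => le_iInf fun hv => ?_)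
    rw [ENNReal.coe_le_coe]
    by_contra hc
    refine hv.ne' (no_perc h0 h1 h2 hm v ?_)
    have := NNReal.coe_le_coe.2 (not_le.1 hc).le
    simpa using this

end Pool.Agent.Results.MP_e1341d_pr.InfiniteMean
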